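import Mathlib
import Pool.Agent.H6.ProjAlgDefs
import Pool.Agent.H6.ProjAlgA
import Pool.Agent.H6.ProjAlgB

set_option autoImplicit false

/-!
MP_71be7b_lc: the number of isomorphism types of projective algebras generated by `k` plane sets.
-/

namespace Pool.Agent.Results.MP_71be7b_lc.Continuum

open Cardinal Pool.Agent.H6.ProjAlg

/-- Isomorphism of projective algebras, as an equivalence relation. -/
def isoSetoid : Setoid PAlg where
  r F G := ∃ f, IsIso F.carrier G.carrier f
  iseqv :=
    { refl := fun F => ⟨id, iso_refl _⟩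
      symm := fun {F _} ⟨_, h⟩ => IsIso.symm F.isAlg h
      trans := fun {F _ _} ⟨_, h⟩ ⟨_, h'⟩ => ⟨_, h.trans F.isAlg h'⟩ }

/-- The isomorphism types of projective algebras generated by `k` plane sets (repetitions
allowed). -/
def types (k : ℕ) : Set (Quotient isoSetoid) :=
  {q | ∃ F : PAlg, q = Quotient.mk isoSetoid F ∧
    ∃ g : Fin k → Set Plane, F.carrier = gen (Set.range g)}

/-- The isomorphism types of projective algebras generated by `k` distinct plane sets. -/
def typesDistinct (k : ℕ) : Set (Quotient isoSetoid) :=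
  {q | ∃ F : PAlg, q = Quotient.mk isoSetoid F ∧
    ∃ g : Fin k → Set Plane, Function.Injective g ∧ F.carrier = gen (Set.range g)}

lemma upper (k : ℕ) : #(types k) ≤ continuum := by
  classical
  have h : ∀ q : types k, ∃ C : Set (PT k × PT k), ∃ g : Fin k → Set Plane, ∃ F : PAlg,
      q.1 = Quotient.mk isoSetoid F ∧ F.carrier = gen (Set.range g) ∧
        C = {p | ev g p.1 = ev g p.2} := by
    rintro ⟨q, F, hq, g, hg⟩
    exact ⟨_, g, F, hq, hg, rfl⟩
  choose C g F hq hF hC using h
  have hinj : Function.Injective C := by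
    intro a b hab
    have h1 : ∀ t u, ev (g a) t = ev (g a) u ↔ ev (g b) t = ev (g b) u := by
      intro t u
      have h2 : (t, u) ∈ C a ↔ (t, u) ∈ C b := by rw [hab]
      rw [hC, hC] at h2
      exact h2
    obtain ⟨f, hf⟩ := iso_of_code (g a) (g b) h1
    apply Subtype.ext
    rw [hq a, hq b]
    apply Quotient.sound
    refine ⟨f, ?_⟩
    rw [hF a, hF b, gen_eq, gen_eq]
    exact hf
  have h1 := Cardinal.mk_le_of_injective hinj
  refine h1.trans ?_
  rw [Cardinal.mk_set, ← two_power_aleph0]
  exact Cardinal.power_le_power_left two_ne_zero Cardinal.mk_le_aleph0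

/-- For each `A`, an algebra generated by `k` distinct sets which is generated by `SA A`. -/
lemma exists_alg (k : ℕ) (hk : 1 ≤ k) (A : Set ℕ) : ∃ g : Fin k → Set Plane,
    Function.Injective g ∧ gen (Set.range g) = gen {SA A} := by
  classical
  obtain ⟨k, rfl⟩ : ∃ k', k = k' + 1 := ⟨k - 1, by omega⟩
  have hinf : (gen {SA A} \ {SA A}).Infinite := (infinite_gen A).sdiff (Set.finite_singleton _)
  obtain ⟨s, hs, hcard⟩ := hinf.exists_subset_card_eq k
  let e : Fin k → Set Plane := fun i => (s.equivFinOfCardEq hcard).symm i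
  have he : ∀ i, e i ∈ gen {SA A} \ {SA A} := fun i =>
    hs ((s.equivFinOfCardEq hcard).symm i).2
  have hei : Function.Injective e := fun a b hab =>
    (s.equivFinOfCardEq hcard).symm.injective (Subtype.ext hab)
  refine ⟨Fin.cons (SA A) e, ?_, ?_⟩
  · rw [Fin.cons_injective_iff]
    refine ⟨?_, hei⟩
    rintro ⟨i, hi⟩
    exact (he i).2 hi
  · apply Set.Subset.antisymm
    · apply gen_mono
      rintro _ ⟨i, rfl⟩
      refine Fin.cases ?_ (fun i => ?_) i
      · exact subset_gen _ rfl
      · exact (he i).1
    · apply gen_mono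
      rintro _ rfl
      exact subset_gen _ ⟨0, rfl⟩

lemma lower (k : ℕ) (hk : 1 ≤ k) : continuum ≤ #(typesDistinct k) := by
  classical
  choose g hg1 hg2 using exists_alg k hk
  let F : Set ℕ → PAlg := fun A => ⟨gen {SA A}, isProjAlg_gen _⟩
  let c : Set ℕ → typesDistinct k := fun A =>
    ⟨Quotient.mk isoSetoid (F A), F A, rfl, g A, hg1 A, (hg2 A).symm⟩
  have hgen : ∀ A, gen {SA A} = Set.range (ev (fun _ : Fin 1 => SA A)) := by
    intro A
    rw [← gen_eq]
    congr 1
    simp
  have hfib : ∀ q : typesDistinct k, #(c ⁻¹' {q}) ≤ ℵ₀ := by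
    intro q
    by_cases hne : (c ⁻¹' {q}).Nonempty
    · obtain ⟨B, hB⟩ := hne
      have hiso : ∀ A : c ⁻¹' {q}, ∃ f, IsIso (gen {SA A.1}) (gen {SA B}) f := by
        rintro ⟨A, hA⟩
        have h1 : c A = c B := by
          rw [Set.mem_preimage, Set.mem_singleton_iff] at hA hB
          rw [hA, hB]
        have h2 : Quotient.mk isoSetoid (F A) = Quotient.mk isoSetoid (F B) :=
          congrArg Subtype.val h1
        exact Quotient.exact h2
      choose f hf using hiso
      have hinj : Function.Injective (fun A : c ⁻¹' {q} =>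
          (⟨f A (SA A.1), (hf A).bij.mapsTo (subset_gen _ rfl)⟩ : gen {SA B})) := by
        intro A A' hAA
        have h1 : f A (SA A.1) = f A' (SA A'.1) := congrArg Subtype.val hAA
        apply Subtype.ext
        have key : ∀ A : c ⁻¹' {q}, ∀ n, n ∉ A.1 ↔ ev (fun _ : Fin 1 => f A (SA A.1)) (tT n) = ∅ := by
          intro A n
          have h2 := ev_iso (fun _ : Fin 1 => SA A.1) (gen {SA A.1}) (gen {SA B}) (isProjAlg_gen _)
            (fun _ => subset_gen _ (Set.mem_singleton _)) (f A) (hf A) (tT n)
          rw [← ev_T, ← h2]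
          constructor
          · intro h
            rw [h]
            exact (hf A).empty (isProjAlg_gen _)
          · intro h
            refine (hf A).bij.injOn (ev_mem _ (gen {SA A.1}) (isProjAlg_gen _)
                (fun _ => subset_gen _ (Set.mem_singleton _)) _)
              (isProjAlg_gen _).empty_mem ?_
            rw [h, (hf A).empty (isProjAlg_gen _)]
        ext n
        have h3 := key A n
        have h4 := key A' n
        rw [h1] at h3
        exact not_iff_not.mp (h3.trans h4.symm)
      refine (Cardinal.mk_le_of_injective hinj).trans ?_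
      have : Countable (gen {SA B}) := by
        rw [hgen B]
        exact (Set.countable_range _).to_subtype
      exact Cardinal.mk_le_aleph0
    · rw [Set.not_nonempty_iff_eq_empty] at hne
      rw [hne]
      simp
  have h1 : #(Set ℕ) ≤ #(typesDistinct k) * ℵ₀ := by
    have h2 : #(Set ℕ) = #(Σ q : typesDistinct k, c ⁻¹' {q}) :=
      Cardinal.mk_congr (Equiv.sigmaFiberEquiv c).symm
    rw [h2, Cardinal.mk_sigma]
    exact (Cardinal.sum_le_sum _ _ hfib).trans (by simp)
  rw [Cardinal.mk_set, Cardinal.mk_nat, two_power_aleph0] at h1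
  by_contra hcon
  push Not at hcon
  have h3 : #(typesDistinct k) * ℵ₀ < continuum :=
    Cardinal.mul_lt_of_lt aleph0_le_continuum hcon aleph0_lt_continuum
  exact absurd h1 (not_le.mpr h3)

lemma distinct_subset (k : ℕ) : typesDistinct k ⊆ types k := by
  rintro q ⟨F, hq, g, -, hg⟩
  exact ⟨F, hq, g, hg⟩

theorem result (k : ℕ) (hk : 1 ≤ k) :
    #(types k) = continuum ∧ #(typesDistinct k) = continuum := by
  have h1 := Cardinal.mk_le_mk_of_subset (distinct_subset k)
  exact ⟨le_antisymm (upper k) ((lower k hk).trans h1),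
    le_antisymm (h1.trans (upper k)) (lower k hk)⟩

end Pool.Agent.Results.MP_71be7b_lc.Continuum
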